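import Pool.Agent.K1H54.GC.Stm

/-!
Project GC: comparison of the integral with the sums over windows.
-/

set_option autoImplicit false

namespace Pool.Agent.K1H29.GC

open Finset Pool.Agent.K1H54.GC MeasureTheory

/-- the summation range can be enlarged -/
theorem MM_eq {q : ℕ} (χ : DirichletCharacter ℂ q) (x H b : ℝ) (hx : x ≤ b) :
    MM χ x H = ∑ n ∈ range (⌈b + H⌉₊ + 1), if |(n : ℝ) - x| < H / 2 then aa χ n else 0 := by
  rw [MM, ← Finset.sum_filter]
  refine Finset.sum_congr ?_ fun _ _ => rfl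
  ext n
  simp only [Finset.mem_filter, Finset.mem_range]
  constructor
  · rintro ⟨h1, h2⟩
    refine ⟨lt_of_lt_of_le h1 ?_, h2⟩
    have : ⌈x + H⌉₊ ≤ ⌈b + H⌉₊ := Nat.ceil_mono (by linarith)
    omega
  · rintro ⟨h1, h2⟩
    refine ⟨?_, h2⟩
    have h3 := abs_lt.1 h2
    have h4 : (n : ℝ) < ⌈x + H⌉₊ := by
      refine lt_of_lt_of_le ?_ (Nat.le_ceil (x + H))
      linarith [h3.1, h3.2]
    have h5 : n < ⌈x + H⌉₊ := by exact_mod_cast h4
    omega

theorem integrable_all {q : ℕ} (χ : DirichletCharacter ℂ q) (H a b : ℝ) (hab : a ≤ b) :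
    IntervalIntegrable (fun x => ‖MM χ x H‖ ^ 2) volume a b := by
  have hmeas : Measurable fun x : ℝ => ∑ n ∈ range (⌈b + H⌉₊ + 1),
      if |(n : ℝ) - x| < H / 2 then aa χ n else 0 := by
    refine Finset.measurable_sum _ fun n _ => ?_
    refine Measurable.ite ?_ measurable_const measurable_const
    exact measurableSet_lt (by fun_prop) measurable_const
  have h1 : IntervalIntegrable (fun x : ℝ => ‖∑ n ∈ range (⌈b + H⌉₊ + 1),
      (if |(n : ℝ) - x| < H / 2 then aa χ n else 0)‖ ^ 2) volume a b := by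
    rw [intervalIntegrable_iff]
    refine Measure.integrableOn_of_bounded (M := (∑ n ∈ range (⌈b + H⌉₊ + 1), ‖aa χ n‖) ^ 2)
      (by simp [Set.uIoc]) ?_ ?_
    · exact (hmeas.norm.pow_const 2).aestronglyMeasurable
    · refine Filter.Eventually.of_forall fun x => ?_
      rw [Real.norm_of_nonneg (by positivity)]
      refine pow_le_pow_left₀ (norm_nonneg _) ((norm_sum_le _ _).trans (Finset.sum_le_sum fun n _ => ?_)) 2
      split_ifs
      · exact le_rfl
      · rw [norm_zero]; positivity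
  refine h1.congr ?_
  intro x hx
  rw [Set.uIoc_of_le hab] at hx
  simp only
  rw [MM_eq χ x H b hx.2]

theorem sum_windows (h : S_INT) {q : ℕ} (χ : DirichletCharacter ℂ q) (H : ℝ) (U1 U2 : ℕ)
    (hH : 1 ≤ H) (hU : U1 ≤ U2) :
    ∫ x in (U1 + H / 2 : ℝ)..(U2 + H / 2), ‖MM χ x H‖ ^ 2 =
      (1 - Int.fract H) * II χ U1 U2 ⌊H⌋₊ + Int.fract H * II χ U1 U2 (⌊H⌋₊ + 1) := by
  have h1 := intervalIntegral.sum_integral_adjacent_intervals_Ico (f := fun x => ‖MM χ x H‖ ^ 2)
    (μ := volume) (a := fun k : ℕ => (k : ℝ) + H / 2) hU (fun k _ => by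
      refine integrable_all χ H _ _ ?_
      push_cast
      linarith)
  rw [← h1, II, II, Finset.mul_sum, Finset.mul_sum, ← Finset.sum_add_distrib]
  refine Finset.sum_congr rfl fun k _ => ?_
  have h2 := (h q χ H k hH).2
  push_cast
  exact h2

theorem t_SAND (h : S_INT) : S_SAND := by
  intro q χ X H U1 U2 hH hX hU
  have hU' : (U1 : ℝ) ≤ U2 := by exact_mod_cast hU
  rw [← sum_windows h χ H U1 U2 hH hU]
  refine ⟨fun h1 h2 => ?_, fun h1 h2 => ?_⟩
  · refine intervalIntegral.integral_mono_interval h1 (by linarith) h2 ?_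
      (integrable_all χ H _ _ (by linarith))
    exact Filter.Eventually.of_forall fun x => by positivity
  · refine intervalIntegral.integral_mono_interval h1 (by linarith) h2 ?_
      (integrable_all χ H _ _ (by linarith))
    exact Filter.Eventually.of_forall fun x => by positivity

end Pool.Agent.K1H29.GC
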